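import Pool.Agent.H706.WR.Sums

/-!
# The Wiener roots of trees, and those of connected graphs, are dense in the complex plane

The Wiener polynomial of a connected graph `G` is `W(G; x) = ∑ x ^ d(u, v)`, the sum over the
unordered pairs of distinct vertices.  We show that the closure of the set of the roots of the
Wiener polynomials of all trees is `ℂ` (Q2), hence the same for all connected graphs (Q1).

For `z` with positive imaginary part there are `m ≥ 1` and `a, b ≥ 0` with `z ^ m + b z + a = 0`.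
The trees are brooms: `N` paths of length `m` from the root with `N` leaves at the end of each,
`N` edges with `⌊b N⌋` leaves at the end of each, and `N ⌊a N⌋` leaves at the root.  Twice
the Wiener polynomial is, up to `O(N³)` on compact sets, `(N² z (z ^ m + b z + a))²`, its degree
is `2 (m + 1)` and its leading coefficient is at least `N⁴ / 2`.
-/

namespace Pool.Agent.Results.MP_dc0d33_co.WienerRootsDense

open Finset Polynomial Pool.Agent.H706.WR

/-- The Wiener polynomial: the sum of `X ^ d(u, v)` over the pairs of vertices `u < v`. -/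
noncomputable def wiener {n : ℕ} (G : SimpleGraph (Fin n)) : ℂ[X] :=
  ∑ p : Fin n × Fin n with p.1 < p.2, X ^ G.dist p.1 p.2

/-- The Wiener roots of all connected graphs (with at least two vertices). -/
def connRoots : Set ℂ :=
  {z | ∃ (n : ℕ) (G : SimpleGraph (Fin n)), 2 ≤ n ∧ G.Connected ∧ (wiener G).eval z = 0}

/-- The Wiener roots of all trees (with at least two vertices). -/
def treeRoots : Set ℂ :=
  {z | ∃ (n : ℕ) (G : SimpleGraph (Fin n)), 2 ≤ n ∧ G.IsTree ∧ (wiener G).eval z = 0}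

theorem treeRoots_subset : treeRoots ⊆ connRoots := by
  rintro z ⟨n, G, hn, hG, hz⟩
  exact ⟨n, G, hn, hG.1, hz⟩

theorem dist_hom_le {V W : Type*} {G : SimpleGraph V} {G' : SimpleGraph W} (f : G →g G')
    (hG : G.Connected) (u v : V) : G'.dist (f u) (f v) ≤ G.dist u v := by
  obtain ⟨p, hp⟩ := hG.exists_walk_length_eq_dist u v
  rw [← hp, ← SimpleGraph.Walk.length_map f p]
  exact SimpleGraph.dist_le _

theorem dist_iso {V W : Type*} {G : SimpleGraph V} {G' : SimpleGraph W} (e : G ≃g G')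
    (hG : G.Connected) (u v : V) : G'.dist (e u) (e v) = G.dist u v := by
  apply le_antisymm
  · exact dist_hom_le e.toHom hG u v
  · have h := dist_hom_le e.symm.toHom ((SimpleGraph.Iso.connected_iff e).1 hG) (e u) (e v)
    have e1 : ∀ x : V, e.symm.toHom (e x) = x := fun x => e.symm_apply_apply x
    rwa [e1, e1] at h

theorem osum_eq {n : ℕ} (G : SimpleGraph (Fin n)) (z : ℂ) :
    osum G z = 2 * (wiener G).eval z := by
  classical
  have e1 : (wiener G).eval z = ∑ p : Fin n × Fin n with p.1 < p.2, z ^ G.dist p.1 p.2 := by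
    simp [wiener, eval_finsetSum]
  have e2 : ∑ p : Fin n × Fin n with p.2 < p.1, z ^ G.dist p.1 p.2 =
      ∑ p : Fin n × Fin n with p.1 < p.2, z ^ G.dist p.1 p.2 := by
    refine Finset.sum_nbij' Prod.swap Prod.swap ?_ ?_ ?_ ?_ ?_
    · intro p hp
      simpa using hp
    · intro p hp
      simpa using hp
    · intro p _
      simp
    · intro p _
      simp
    · intro p _
      simp [SimpleGraph.dist_comm]
  have e3 : osum G z = ∑ p : Fin n × Fin n, if p.1 = p.2 then 0 else z ^ G.dist p.1 p.2 := by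
    rw [osum, Fintype.sum_prod_type]
    refine Finset.sum_congr rfl fun u _ => Finset.sum_congr rfl fun v _ => ?_
    by_cases h : u = v
    · rw [if_pos h, if_pos h]
    · rw [if_neg h, if_neg h]
  rw [e3, e1, two_mul]
  nth_rewrite 1 [← e2]
  rw [Finset.sum_filter, Finset.sum_filter, ← Finset.sum_add_distrib]
  refine Finset.sum_congr rfl fun p _ => ?_
  rcases lt_trichotomy p.1 p.2 with h | h | h
  · rw [if_neg h.ne, if_neg h.not_gt, if_pos h, zero_add]
  · rw [if_pos h, if_neg (by rw [h]; exact lt_irrefl _), if_neg (by rw [h]; exact lt_irrefl _),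
      zero_add]
  · rw [if_neg h.ne', if_pos h, if_neg h.not_gt, add_zero]

theorem mem_treeRoots {V : Type*} [Fintype V] (G : SimpleGraph V) (hG : G.IsTree)
    (hV : 2 ≤ Fintype.card V) (z : ℂ) (hz : osum G z = 0) : z ∈ treeRoots := by
  classical
  let e := G.overFinIso (rfl : Fintype.card V = Fintype.card V)
  refine ⟨Fintype.card V, G.overFin rfl, hV, e.isTree_iff.1 hG, ?_⟩
  have h1 : osum (G.overFin (rfl : Fintype.card V = Fintype.card V)) z = osum G z := by
    rw [osum, osum, ← Equiv.sum_comp e.toEquiv]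
    refine Finset.sum_congr rfl fun u _ => ?_
    rw [← Equiv.sum_comp e.toEquiv]
    refine Finset.sum_congr rfl fun v _ => ?_
    have h2 : (G.overFin (rfl : Fintype.card V = Fintype.card V)).dist (e.toEquiv u)
      (e.toEquiv v) = G.dist u v := dist_iso e hG.1 u v
    by_cases h : u = v
    · rw [if_pos h, if_pos (by rw [h])]
    · rw [if_neg h, if_neg (fun h' => h (e.toEquiv.injective h')), h2]
  rw [hz, osum_eq] at h1
  simpa using h1

/-- A polynomial which is small at a point, with a large coefficient, has a root nearby. -/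
theorem exists_root_near (P : ℂ[X]) (D : ℕ) (hD : P.natDegree ≤ D) (K : ℝ) (hK : 0 < K)
    (hc : K ≤ ‖P.coeff D‖) (z : ℂ) (ε : ℝ) (hε : 0 < ε) (hz : ‖P.eval z‖ < K * ε ^ D) :
    ∃ w, P.eval w = 0 ∧ dist w z < ε := by
  have hne : P.coeff D ≠ 0 := by
    intro h
    rw [h, norm_zero] at hc
    linarith
  have hdeg : P.natDegree = D := le_antisymm hD (Polynomial.le_natDegree_of_ne_zero hne)
  have hP : P ≠ 0 := by
    rintro rfl
    simp at hne
  have hs : P.Splits := IsAlgClosed.splits P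
  by_contra hcon
  push Not at hcon
  have h1 : ∀ w ∈ P.roots, ε ≤ ‖z - w‖ := by
    intro w hw
    have := hcon w ((Polynomial.mem_roots hP).1 hw)
    rwa [dist_comm, dist_eq_norm] at this
  have h2 : ∀ s : Multiset ℂ, (∀ w ∈ s, ε ≤ ‖z - w‖) →
      ε ^ s.card ≤ ‖(s.map (z - ·)).prod‖ := by
    intro s
    induction s using Multiset.induction_on with
    | empty => intro _; simp
    | cons a s ih =>
      intro h
      rw [Multiset.card_cons, Multiset.map_cons, Multiset.prod_cons, norm_mul, pow_succ, mul_comm]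
      exact mul_le_mul (h a (Multiset.mem_cons_self a s))
        (ih fun w hw => h w (Multiset.mem_cons_of_mem hw)) (by positivity) (norm_nonneg _)
  have h3 := h2 P.roots h1
  rw [← hs.natDegree_eq_card_roots, hdeg] at h3
  rw [hs.eval_eq_prod_roots, norm_mul] at hz
  have h4 : P.leadingCoeff = P.coeff D := by rw [Polynomial.leadingCoeff, hdeg]
  rw [h4] at hz
  have h5 : K * ε ^ D ≤ ‖P.coeff D‖ * ‖(P.roots.map (z - ·)).prod‖ :=
    mul_le_mul hc h3 (by positivity) (norm_nonneg _)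
  linarith

theorem pow_identity (z w : ℂ) :
    z * w * (z.im : ℂ) = ((z * w).im : ℂ) * z - ((‖z‖ ^ 2 : ℝ) : ℂ) * (w.im : ℂ) := by
  rw [← Complex.normSq_eq_norm_sq, Complex.normSq_apply]
  apply Complex.ext
  · simp
    ring
  · simp

theorem exists_im_nonpos (z : ℂ) (hz : 0 < z.im) : ∃ k : ℕ, 1 ≤ k ∧ (z ^ k).im ≤ 0 := by
  have hθ := Complex.arg_mem_Ioc z
  have h0 : 0 < z.arg := by
    rcases lt_or_eq_of_le (Complex.arg_nonneg_iff.2 hz.le) with h | h
    · exact h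
    · have := Complex.arg_eq_zero_iff.1 h.symm
      linarith [this.2]
  refine ⟨⌈Real.pi / z.arg⌉₊, ?_, ?_⟩
  · rw [Nat.one_le_ceil_iff]
    exact div_pos Real.pi_pos h0
  · set k := ⌈Real.pi / z.arg⌉₊ with hk
    have h1 : Real.pi / z.arg ≤ k := Nat.le_ceil _
    have h2 : (k : ℝ) < Real.pi / z.arg + 1 := Nat.ceil_lt_add_one (div_pos Real.pi_pos h0).le
    have h3 : Real.pi ≤ k * z.arg := by rwa [div_le_iff₀ h0] at h1
    have h4 : k * z.arg < Real.pi + z.arg := by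
      have := mul_lt_mul_of_pos_right h2 h0
      rwa [add_mul, div_mul_cancel₀ _ h0.ne', one_mul] at this
    have h5 : z ^ k = (‖z‖ ^ k : ℝ) * Complex.exp ((k * z.arg : ℝ) * Complex.I) := by
      conv_lhs => rw [← Complex.norm_mul_exp_arg_mul_I z]
      rw [mul_pow, ← Complex.exp_nat_mul]
      push_cast
      ring_nf
    rw [h5, Complex.im_ofReal_mul, Complex.exp_ofReal_mul_I_im, ← Real.sin_sub_two_pi]
    apply mul_nonpos_of_nonneg_of_nonpos (by positivity)
    have h6 := hθ.2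
    exact Real.sin_nonpos_of_nonpos_of_neg_pi_le (by linarith) (by linarith)

/-- Every `z` with positive imaginary part is a root of a trinomial `z ^ m + b z + a` with
nonnegative coefficients. -/
theorem exists_trinomial (z : ℂ) (hz : 0 < z.im) :
    ∃ m : ℕ, 1 ≤ m ∧ ∃ a b : ℝ, 0 ≤ a ∧ 0 ≤ b ∧ z ^ m + b * z + a = 0 := by
  classical
  have hex := exists_im_nonpos z hz
  obtain ⟨hk1, hk2⟩ := Nat.find_spec hex
  have hmin := fun j => Nat.find_min (m := j) hex
  set k := Nat.find hex with hk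
  obtain ⟨j, hj⟩ : ∃ j, k = j + 1 := ⟨k - 1, by omega⟩
  rw [hj] at hk2 hmin
  have hj1 : 1 ≤ j := by
    rcases Nat.eq_zero_or_pos j with h | h
    · rw [h] at hk2
      simp at hk2
      linarith
    · exact h
  have hj2 : 0 < (z ^ j).im := by
    by_contra h
    exact hmin j (Nat.lt_succ_self j) ⟨hj1, not_lt.1 h⟩
  have hid := pow_identity z (z ^ j)
  rw [← pow_succ'] at hid
  have hzi : (z.im : ℂ) ≠ 0 := Complex.ofReal_ne_zero.2 hz.ne'
  refine ⟨j + 1, by omega, ‖z‖ ^ 2 * (z ^ j).im / z.im, -(z ^ (j + 1)).im / z.im,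
    by positivity, div_nonneg (by linarith) hz.le, ?_⟩
  push_cast at hid ⊢
  field_simp
  linear_combination hid

theorem near_upper (z : ℂ) (hz : 0 < z.im) (ε : ℝ) (hε : 0 < ε) :
    ∃ w ∈ treeRoots, dist w z < ε := by
  obtain ⟨m, hm, a, b, ha, hb, hab⟩ := exists_trinomial z hz
  let H := m + 1
  let h : Fin 3 → ℕ := ![m + 1, 2, 1]
  have hH : ∀ c, h c ≤ H := by
    intro c
    fin_cases c
    · exact le_rfl
    · change 2 ≤ m + 1
      omega
    · change 1 ≤ m + 1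
      omega
  have h1 : ∀ c, 1 ≤ h c := by
    intro c
    fin_cases c
    · change 1 ≤ m + 1
      omega
    · change 1 ≤ 2
      omega
    · exact le_rfl
  let R : ℝ := (max 1 ‖z‖) ^ (2 * H)
  have hR : 0 ≤ R := by positivity
  let C : ℝ := (‖z‖ ^ 2 + ‖z‖) ^ 2 + (2 * R) * (2 * (1 + 3 * H) * (2 + 3 * H + a + b) +
    (1 + a ^ 2 + b ^ 2))
  have hC : 0 ≤ C := by positivity
  obtain ⟨N, hN⟩ := exists_nat_gt (max 2 (2 * C / ε ^ (2 * H)))
  have hN2 : (2 : ℝ) < N := lt_of_le_of_lt (le_max_left _ _) hN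
  have hN1 : (1 : ℝ) ≤ N := by linarith
  have hNC : 2 * C < N * ε ^ (2 * H) := by
    have := lt_of_le_of_lt (le_max_right _ _) hN
    rwa [div_lt_iff₀ (by positivity)] at this
  let L : Fin 3 → ℕ := ![N, ⌊b * N⌋₊, ⌊a * N⌋₊]
  have hbN : 0 ≤ b * N := by positivity
  have haN : 0 ≤ a * N := by positivity
  have hb1 : (⌊b * N⌋₊ : ℝ) ≤ b * N := Nat.floor_le hbN
  have hb2 : b * N < ⌊b * N⌋₊ + 1 := Nat.lt_floor_add_one _
  have ha1 : (⌊a * N⌋₊ : ℝ) ≤ a * N := Nat.floor_le haN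
  have ha2 : a * N < ⌊a * N⌋₊ + 1 := Nat.lt_floor_add_one _
  let V := Vtx N H L
  let G : SimpleGraph V := tre hH
  have hbound := osum_bound (N := N) (L := L) hH h1 z
  have hS : ‖(L 0 * z ^ h 0 + L 1 * z ^ h 1 + L 2 * z ^ h 2 : ℂ)‖ ≤ ‖z‖ ^ 2 + ‖z‖ := by
    have e1 : (L 0 * z ^ h 0 + L 1 * z ^ h 1 + L 2 * z ^ h 2 : ℂ) =
        -(((b * N - ⌊b * N⌋₊ : ℝ) : ℂ) * z ^ 2 + ((a * N - ⌊a * N⌋₊ : ℝ) : ℂ) * z) := by
      change ((N : ℂ) * z ^ (m + 1) + ((⌊b * N⌋₊ : ℕ) : ℂ) * z ^ 2 +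
        ((⌊a * N⌋₊ : ℕ) : ℂ) * z ^ 1) = _
      push_cast
      have h2 : z ^ m = -(b * z + a) := by linear_combination hab
      rw [pow_succ, h2]
      ring
    rw [e1, norm_neg]
    refine (norm_add_le _ _).trans ?_
    rw [norm_mul, norm_mul, norm_pow]
    have h2 : ‖((b * N - ⌊b * N⌋₊ : ℝ) : ℂ)‖ ≤ 1 := by
      rw [Complex.norm_real, Real.norm_eq_abs, abs_le]
      constructor <;> linarith
    have h3 : ‖((a * N - ⌊a * N⌋₊ : ℝ) : ℂ)‖ ≤ 1 := by
      rw [Complex.norm_real, Real.norm_eq_abs, abs_le]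
      constructor <;> linarith
    have h4 := mul_le_mul_of_nonneg_right h2 (by positivity : 0 ≤ ‖z‖ ^ 2)
    have h5 := mul_le_mul_of_nonneg_right h3 (norm_nonneg z)
    linarith
  have hL0 : (L 0 : ℝ) = N := rfl
  have hL1 : (L 1 : ℝ) ≤ b * N := hb1
  have hL2 : (L 2 : ℝ) ≤ a * N := ha1
  have hL1' : (0 : ℝ) ≤ L 1 := Nat.cast_nonneg _
  have hL2' : (0 : ℝ) ≤ L 2 := Nat.cast_nonneg _
  have hsmall : ‖osum G z‖ ≤ C * N ^ 3 := by
    have e1 : ‖osum G z‖ ≤ ‖(N * (L 0 * z ^ h 0 + L 1 * z ^ h 1 + L 2 * z ^ h 2) : ℂ) ^ 2‖ +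
        ‖osum G z - (N * (L 0 * z ^ h 0 + L 1 * z ^ h 1 + L 2 * z ^ h 2)) ^ 2‖ := by
      have := norm_add_le ((N * (L 0 * z ^ h 0 + L 1 * z ^ h 1 + L 2 * z ^ h 2) : ℂ) ^ 2)
        (osum G z - (N * (L 0 * z ^ h 0 + L 1 * z ^ h 1 + L 2 * z ^ h 2)) ^ 2)
      simpa using this
    have e2 : ‖(N * (L 0 * z ^ h 0 + L 1 * z ^ h 1 + L 2 * z ^ h 2) : ℂ) ^ 2‖ ≤
        (‖z‖ ^ 2 + ‖z‖) ^ 2 * N ^ 3 := by
      rw [norm_pow, norm_mul, Complex.norm_natCast, mul_pow]
      have h2 : ‖(L 0 * z ^ h 0 + L 1 * z ^ h 1 + L 2 * z ^ h 2 : ℂ)‖ ^ 2 ≤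
          (‖z‖ ^ 2 + ‖z‖) ^ 2 := pow_le_pow_left₀ (norm_nonneg _) hS 2
      have h3 : (N : ℝ) ^ 2 ≤ N ^ 3 := pow_le_pow_right₀ hN1 (by norm_num)
      rw [mul_comm]
      exact mul_le_mul h2 h3 (by positivity) (by positivity)
    have e3 : (2 * (1 + 3 * N * H) * (1 + 3 * N * H + N * (L 0 + L 1 + L 2)) +
          N * ((L 0 : ℝ) ^ 2 + (L 1 : ℝ) ^ 2 + (L 2 : ℝ) ^ 2)) ≤
        (2 * (1 + 3 * H) * (2 + 3 * H + a + b) + (1 + a ^ 2 + b ^ 2)) * (N : ℝ) ^ 3 := by
      have hH0 : (0 : ℝ) ≤ H := Nat.cast_nonneg _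
      have f1 : (1 + 3 * N * H : ℝ) ≤ (1 + 3 * H) * N := by nlinarith
      have hNN : (N : ℝ) ≤ N ^ 2 := by nlinarith
      have f2 : (1 + 3 * N * H + N * (L 0 + L 1 + L 2) : ℝ) ≤ (2 + 3 * H + a + b) * N ^ 2 := by
        have g1 : (N * (L 0 + L 1 + L 2) : ℝ) ≤ N * (N + b * N + a * N) := by
          apply mul_le_mul_of_nonneg_left _ (by linarith)
          linarith
        have g2 : (3 * H : ℝ) * N ≤ 3 * H * N ^ 2 :=
          mul_le_mul_of_nonneg_left hNN (by positivity)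
        nlinarith
      have f3 : ((L 0 : ℝ) ^ 2 + (L 1 : ℝ) ^ 2 + (L 2 : ℝ) ^ 2) ≤ (1 + a ^ 2 + b ^ 2) * N ^ 2 := by
        have g1 : (L 1 : ℝ) ^ 2 ≤ (b * N) ^ 2 := pow_le_pow_left₀ hL1' hL1 2
        have g2 : (L 2 : ℝ) ^ 2 ≤ (a * N) ^ 2 := pow_le_pow_left₀ hL2' hL2 2
        rw [hL0]
        nlinarith
      have f4 : (2 * (1 + 3 * N * H) * (1 + 3 * N * H + N * (L 0 + L 1 + L 2)) : ℝ) ≤
          2 * ((1 + 3 * H) * N) * ((2 + 3 * H + a + b) * N ^ 2) := by
        apply mul_le_mul (by linarith) f2 (by positivity) (by positivity)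
      have f5 : (N * ((L 0 : ℝ) ^ 2 + (L 1 : ℝ) ^ 2 + (L 2 : ℝ) ^ 2)) ≤
          N * ((1 + a ^ 2 + b ^ 2) * N ^ 2) := mul_le_mul_of_nonneg_left f3 (by linarith)
      refine (add_le_add f4 f5).trans (le_of_eq ?_)
      ring
    have e4 := mul_le_mul_of_nonneg_left e3 (by positivity : 0 ≤ 2 * R)
    have e5 : ‖osum G z - (N * (L 0 * z ^ h 0 + L 1 * z ^ h 1 + L 2 * z ^ h 2)) ^ 2‖ ≤
      (2 * R) * ((2 * (1 + 3 * H) * (2 + 3 * H + a + b) + (1 + a ^ 2 + b ^ 2)) * (N : ℝ) ^ 3) :=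
      hbound.trans e4
    calc ‖osum G z‖ ≤ _ := e1
      _ ≤ (‖z‖ ^ 2 + ‖z‖) ^ 2 * N ^ 3 + (2 * R) * ((2 * (1 + 3 * H) * (2 + 3 * H + a + b) +
          (1 + a ^ 2 + b ^ 2)) * (N : ℝ) ^ 3) := add_le_add e2 e5
      _ = C * N ^ 3 := by
        simp only [C]
        ring
  have hcoef : (N : ℝ) ^ 4 / 2 ≤ ‖(opoly G).coeff (2 * H)‖ := by
    refine le_trans ?_ (norm_coeff_ge hH h1 rfl)
    rw [hL0]
    have : (N : ℝ) / 2 ≤ N - 1 := by linarith
    have h2 := mul_le_mul_of_nonneg_left this (by positivity : (0 : ℝ) ≤ N ^ 3)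
    nlinarith
  have hlt : ‖(opoly G).eval z‖ < (N : ℝ) ^ 4 / 2 * ε ^ (2 * H) := by
    rw [eval_opoly]
    refine lt_of_le_of_lt hsmall ?_
    have h2 := mul_lt_mul_of_pos_left hNC (by positivity : (0 : ℝ) < (N : ℝ) ^ 3 / 2)
    calc C * (N : ℝ) ^ 3 = (N : ℝ) ^ 3 / 2 * (2 * C) := by ring
      _ < _ := h2
      _ = _ := by ring
  obtain ⟨w, hw, hwz⟩ := exists_root_near (opoly G) (2 * H)
    (natDegree_opoly_le G (2 * H) (tre_dist_le hH h1)) ((N : ℝ) ^ 4 / 2) (by positivity)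
    hcoef z ε hε hlt
  refine ⟨w, mem_treeRoots G (tre_isTree hH h1) ?_ w ?_, hwz⟩
  · have hNpos : 0 < N := by
      have : (0 : ℝ) < N := by linarith
      exact_mod_cast this
    exact Fintype.one_lt_card_iff.2 ⟨none, some (Sum.inl (0, ⟨0, hNpos⟩, ⟨0, Nat.succ_pos m⟩)),
      by simp⟩
  · rw [← eval_opoly]
    exact hw

theorem conj_mem {z : ℂ} (hz : z ∈ treeRoots) : (starRingEnd ℂ) z ∈ treeRoots := by
  obtain ⟨n, G, hn, hG, h⟩ := hz
  refine ⟨n, G, hn, hG, ?_⟩
  have h2 := congrArg (starRingEnd ℂ) h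
  rw [map_zero] at h2
  rw [← h2]
  simp [wiener, eval_finsetSum]

theorem near (z : ℂ) (ε : ℝ) (hε : 0 < ε) : ∃ w ∈ treeRoots, dist w z < ε := by
  rcases lt_trichotomy 0 z.im with h | h | h
  · exact near_upper z h ε hε
  · obtain ⟨w, hw, hd⟩ := near_upper (z + (ε / 2 : ℝ) * Complex.I) (by simp [← h, hε]) (ε / 2)
      (by positivity)
    refine ⟨w, hw, ?_⟩
    have h2 : dist (z + (ε / 2 : ℝ) * Complex.I) z = ε / 2 := by
      rw [dist_eq_norm, add_sub_cancel_left, norm_mul, Complex.norm_I, mul_one,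
        Complex.norm_real, Real.norm_eq_abs, abs_of_pos (by positivity)]
    have h3 := dist_triangle w (z + (ε / 2 : ℝ) * Complex.I) z
    linarith
  · obtain ⟨w, hw, hd⟩ := near_upper ((starRingEnd ℂ) z) (by simp [h]) ε hε
    refine ⟨(starRingEnd ℂ) w, conj_mem hw, ?_⟩
    rw [dist_eq_norm] at hd ⊢
    rw [← Complex.norm_conj, map_sub, Complex.conj_conj]
    exact hd

/-- **The Wiener roots of trees are dense in `ℂ`** (Q2), and so are those of connected graphs
(Q1). -/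
theorem result : closure treeRoots = Set.univ ∧ closure connRoots = Set.univ := by
  have h1 : closure treeRoots = Set.univ := by
    refine Set.eq_univ_of_forall fun z => Metric.mem_closure_iff.2 fun ε hε => ?_
    obtain ⟨w, hw, hd⟩ := near z ε hε
    exact ⟨w, hw, by rwa [dist_comm]⟩
  refine ⟨h1, ?_⟩
  refine Set.eq_univ_of_univ_subset ?_
  rw [← h1]
  exact closure_mono treeRoots_subset

end Pool.Agent.Results.MP_dc0d33_co.WienerRootsDense
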